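import Pool.Agent.W710.DP.Stm2

/-!
Project DP: diffeomorphisms of the plane from generating functions (S_bij → S_gf).
-/

set_option autoImplicit false

namespace Pool.Agent.W645.DP.Gf

open Pool.Agent.W710.DP

noncomputable abbrev e : ℂ ≃L[ℝ] ℝ × ℝ := Complex.equivRealProdCLM

theorem e_mk (x y : ℝ) : e (⟨x, y⟩ : ℂ) = (x, y) := rfl

theorem e_symm_mk (x y : ℝ) : e.symm (x, y) = (⟨x, y⟩ : ℂ) := by
  rw [ContinuousLinearEquiv.symm_apply_eq]
  rfl

theorem det_two (A : ℝ × ℝ →ₗ[ℝ] ℝ × ℝ) :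
    LinearMap.det A = (A (1, 0)).1 * (A (0, 1)).2 - (A (0, 1)).1 * (A (1, 0)).2 := by
  rw [← LinearMap.det_toMatrix (Module.Basis.finTwoProd ℝ), Matrix.det_fin_two]
  simp [LinearMap.toMatrix_apply]

theorem smooth_px {g : ℝ × ℝ → ℝ} (hg : Sm g) : Sm (px g) := by
  have h : ContDiff ℝ ((⊤ : ℕ∞) : WithTop ℕ∞) (fderiv ℝ g) :=
    hg.fderiv_right (by simp)
  exact h.clm_apply contDiff_const

theorem smooth_ps {g : ℝ × ℝ → ℝ} (hg : Sm g) : Sm (ps g) := by
  have h : ContDiff ℝ ((⊤ : ℕ∞) : WithTop ℕ∞) (fderiv ℝ g) :=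
    hg.fderiv_right (by simp)
  exact h.clm_apply contDiff_const

theorem mixed {g : ℝ × ℝ → ℝ} (hg : Sm g) (p : ℝ × ℝ) : ps (px g) p = px (ps g) p := by
  have h : ContDiff ℝ ((⊤ : ℕ∞) : WithTop ℕ∞) (fderiv ℝ g) :=
    hg.fderiv_right (by simp)
  have hd : DifferentiableAt ℝ (fderiv ℝ g) p := (h.differentiable (by simp)) p
  have h1 : ∀ v w : ℝ × ℝ, fderiv ℝ (fun q => fderiv ℝ g q v) p w = fderiv ℝ (fderiv ℝ g) p w v := by
    intro v w
    rw [fderiv_clm_apply hd (differentiableAt_const v)]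
    simp
  have h2 : IsSymmSndFDerivAt ℝ g p := by
    apply ContDiffAt.isSymmSndFDerivAt (n := ((⊤ : ℕ∞) : WithTop ℕ∞)) hg.contDiffAt
    rw [minSmoothness_of_isRCLikeNormedField]
    exact WithTop.coe_le_coe.2 le_top
  unfold ps px
  rw [h1, h1]
  exact h2 _ _

theorem lip_of {u : ℝ × ℝ → ℝ} (hu : Sm u) (hb : ∀ p, ‖fderiv ℝ u p‖ ≤ 1 / 2) (p q : ℝ × ℝ) :
    ‖u p - u q‖ ≤ 1 / 2 * ‖p - q‖ :=
  convex_univ.norm_image_sub_le_of_norm_fderiv_le
    (fun x _ => (hu.differentiable (by simp)) x) (fun x _ => hb x) (Set.mem_univ q) (Set.mem_univ p)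

theorem t_gf (hbij : S_bij) : S_gf := by
  intro g hg hc hb
  have hpx : Sm (px g) := smooth_px hg
  have hps : Sm (ps g) := smooth_ps hg
  obtain ⟨P, hP, hPs⟩ := hbij (fun p => (0, px g p)) (contDiff_const.prodMk hpx) (by
    intro p q
    have h1 := lip_of hpx (fun p => (hb p).1) p q
    rw [Prod.mk_sub_mk, Prod.norm_def, sub_zero]
    simp only [norm_zero]
    exact max_le (by positivity) h1)
  obtain ⟨Q, hQ, hQs⟩ := hbij (fun p => (ps g p, 0)) (hps.prodMk contDiff_const) (by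
    intro p q
    have h1 := lip_of hps (fun p => (hb p).2) p q
    rw [Prod.mk_sub_mk, Prod.norm_def, sub_zero]
    simp only [norm_zero]
    exact max_le h1 (by positivity))
  have hPc : ContDiff ℝ ((⊤ : ℕ∞) : WithTop ℕ∞) (⇑P) := by
    have : (⇑P) = fun p => p + (0, px g p) := funext hP
    rw [this]
    exact contDiff_id.add (contDiff_const.prodMk hpx)
  have hQc : ContDiff ℝ ((⊤ : ℕ∞) : WithTop ℕ∞) (⇑Q) := by
    have : (⇑Q) = fun p => p + (ps g p, 0) := funext hQ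
    rw [this]
    exact contDiff_id.add (hps.prodMk contDiff_const)
  -- the derivatives of `P` and `Q`
  have hdP : ∀ p v, fderiv ℝ (⇑P) p v = v + (0, fderiv ℝ (px g) p v) := by
    intro p v
    have h1 : HasFDerivAt (⇑P) (ContinuousLinearMap.id ℝ (ℝ × ℝ) +
        (0 : ℝ × ℝ →L[ℝ] ℝ).prod (fderiv ℝ (px g) p)) p := by
      have : (⇑P) = fun p => p + (0, px g p) := funext hP
      rw [this]
      exact (hasFDerivAt_id p).add ((hasFDerivAt_const (0 : ℝ) p).prodMk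
        ((hpx.differentiable (by simp)) p).hasFDerivAt)
    rw [h1.fderiv]
    rfl
  have hdQ : ∀ p v, fderiv ℝ (⇑Q) p v = v + (fderiv ℝ (ps g) p v, 0) := by
    intro p v
    have h1 : HasFDerivAt (⇑Q) (ContinuousLinearMap.id ℝ (ℝ × ℝ) +
        (fderiv ℝ (ps g) p).prod (0 : ℝ × ℝ →L[ℝ] ℝ)) p := by
      have : (⇑Q) = fun p => p + (ps g p, 0) := funext hQ
      rw [this]
      exact (hasFDerivAt_id p).add (((hps.differentiable (by simp)) p).hasFDerivAt.prodMk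
        (hasFDerivAt_const (0 : ℝ) p))
    rw [h1.fderiv]
    rfl
  have hdetP : ∀ p, LinearMap.det ((fderiv ℝ (⇑P) p : ℝ × ℝ →L[ℝ] ℝ × ℝ) : ℝ × ℝ →ₗ[ℝ] ℝ × ℝ)
      = 1 + ps (px g) p := by
    intro p
    rw [det_two]
    simp only [ContinuousLinearMap.coe_coe, hdP]
    simp [ps]
  have hdetQ : ∀ p, LinearMap.det ((fderiv ℝ (⇑Q) p : ℝ × ℝ →L[ℝ] ℝ × ℝ) : ℝ × ℝ →ₗ[ℝ] ℝ × ℝ)
      = 1 + px (ps g) p := by
    intro p
    rw [det_two]
    simp only [ContinuousLinearMap.coe_coe, hdQ]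
    simp [px]
  have hne : ∀ p, 1 + ps (px g) p ≠ 0 := by
    intro p
    have h1 : ‖ps (px g) p‖ ≤ 1 / 2 * ‖((0, 1) : ℝ × ℝ)‖ :=
      (ContinuousLinearMap.le_opNorm _ _).trans
        (mul_le_mul_of_nonneg_right (hb p).1 (norm_nonneg _))
    have h2 : ‖((0, 1) : ℝ × ℝ)‖ = 1 := by simp [Prod.norm_def]
    rw [h2, Real.norm_eq_abs] at h1
    have h3 := (abs_le.1 h1).1
    intro h4
    linarith
  -- the map
  let k : ℝ × ℝ → ℝ × ℝ := fun p => Q (P.symm p)
  have hk : ContDiff ℝ ((⊤ : ℕ∞) : WithTop ℕ∞) k := hQc.comp hPs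
  have hdetk : ∀ p, LinearMap.det ((fderiv ℝ k p : ℝ × ℝ →L[ℝ] ℝ × ℝ) : ℝ × ℝ →ₗ[ℝ] ℝ × ℝ) = 1 := by
    intro p
    obtain ⟨q, rfl⟩ := P.surjective p
    have h1 : HasFDerivAt (fun x => k (P x)) ((fderiv ℝ k (P q)).comp (fderiv ℝ (⇑P) q)) q :=
      ((hk.differentiable (by simp)) (P q)).hasFDerivAt.comp q
        ((hPc.differentiable (by simp)) q).hasFDerivAt
    have h2 : (fun x => k (P x)) = ⇑Q := by
      funext x
      simp only [k, Equiv.symm_apply_apply]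
    rw [h2] at h1
    have h3 := h1.fderiv
    have h4 : LinearMap.det ((fderiv ℝ k (P q) : ℝ × ℝ →L[ℝ] ℝ × ℝ) : ℝ × ℝ →ₗ[ℝ] ℝ × ℝ) *
        (1 + ps (px g) q) = 1 + px (ps g) q := by
      rw [← hdetP, ← hdetQ, h3, ← LinearMap.det_comp]
      rfl
    rw [← mixed hg q] at h4
    exact mul_right_cancel₀ (hne q) (h4.trans (one_mul _).symm)
  let f : Equiv.Perm ℂ := e.toEquiv.trans ((P.symm.trans Q).trans e.symm.toEquiv)
  have hf : ∀ z, f z = e.symm (k (e z)) := fun z => rfl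
  have hfs : ∀ z, f.symm z = e.symm (P (Q.symm (e z))) := fun z => rfl
  refine ⟨f, ⟨?_, ?_, ?_⟩, ?_, ?_⟩
  · have : (⇑f) = fun z => e.symm (k (e z)) := funext hf
    rw [this]
    exact e.symm.contDiff.comp (hk.comp e.contDiff)
  · have : (⇑f.symm) = fun z => e.symm (P (Q.symm (e z))) := funext hfs
    rw [this]
    exact e.symm.contDiff.comp ((hPc.comp hQs).comp e.contDiff)
  · intro z
    have h1 : HasFDerivAt (⇑f) ((e.symm : ℝ × ℝ →L[ℝ] ℂ).comp
        ((fderiv ℝ k (e z)).comp (e : ℂ →L[ℝ] ℝ × ℝ))) z := by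
      have : (⇑f) = fun z => e.symm (k (e z)) := funext hf
      rw [this]
      exact (e.symm : ℝ × ℝ →L[ℝ] ℂ).hasFDerivAt.comp z
        (((hk.differentiable (by simp)) (e z)).hasFDerivAt.comp z
          (e : ℂ →L[ℝ] ℝ × ℝ).hasFDerivAt)
    rw [h1.fderiv]
    have h2 := LinearMap.det_conj
      ((fderiv ℝ k (e z) : ℝ × ℝ →L[ℝ] ℝ × ℝ) : ℝ × ℝ →ₗ[ℝ] ℝ × ℝ) e.symm.toLinearEquiv
    rw [hdetk] at h2
    rw [← h2]
    rfl
  · -- compact support
    obtain ⟨r, hr⟩ := hc.isCompact.isBounded.subset_closedBall (0 : ℝ × ℝ)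
    refine ⟨2 * r, fun z hz => ?_⟩
    have h1 : e z ∉ tsupport g := by
      intro h
      have h2 := hr h
      rw [mem_closedBall_zero_iff] at h2
      have h3 := Complex.norm_le_abs_re_add_abs_im z
      have h4 : |z.re| ≤ ‖e z‖ := by
        have := norm_fst_le (e z)
        exact this
      have h5 : |z.im| ≤ ‖e z‖ := by
        have := norm_snd_le (e z)
        exact this
      linarith
    have h2 : fderiv ℝ g (e z) = 0 := by
      by_contra h
      exact h1 (support_fderiv_subset ℝ h)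
    have h3 : P (e z) = e z := by
      have h6 : px g (e z) = 0 := by
        unfold px
        rw [h2]
        rfl
      rw [hP, h6]
      exact add_zero _
    have h4 : Q (e z) = e z := by
      have h6 : ps g (e z) = 0 := by
        unfold ps
        rw [h2]
        rfl
      rw [hQ, h6]
      exact add_zero _
    rw [hf]
    change e.symm (Q (P.symm (e z))) = z
    have h5 : P.symm (e z) = e z := by
      rw [Equiv.symm_apply_eq, h3]
    rw [h5, h4]
    exact e.symm_apply_apply z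
  · intro x y
    have h1 : P (x, y) = (x, y + px g (x, y)) := by
      rw [hP]
      simp
    have h2 : Q (x, y) = (x + ps g (x, y), y) := by
      rw [hQ]
      simp
    rw [hf]
    change e.symm (Q (P.symm (e ⟨x, y + px g (x, y)⟩))) = _
    rw [e_mk, ← h1, Equiv.symm_apply_apply, h2, e_symm_mk]

end Pool.Agent.W645.DP.Gf
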