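import Pool.Agent.W710.DP.Base
import Pool.Agent.W710.DP.Stm2

/-!
Project DP: linear maps near 0 (S_shear → S_lin).
-/

set_option autoImplicit false

namespace Pool.Agent.W645.DP.Lin

open Pool.Agent.W710.DP

/-- the linear map with the given matrix -/
def mat (a b c d : ℝ) (z : ℂ) : ℂ := ⟨a * z.re + b * z.im, c * z.re + d * z.im⟩

theorem mat_re (a b c d : ℝ) (z : ℂ) : (mat a b c d z).re = a * z.re + b * z.im := rfl
theorem mat_im (a b c d : ℝ) (z : ℂ) : (mat a b c d z).im = c * z.re + d * z.im := rfl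

theorem mat_eq (A : ℂ →ₗ[ℝ] ℂ) (z : ℂ) :
    A z = mat (A 1).re (A Complex.I).re (A 1).im (A Complex.I).im z := by
  have h1 : z = z.re • (1 : ℂ) + z.im • Complex.I := by
    apply Complex.ext <;> simp
  conv_lhs => rw [h1, map_add, map_smul, map_smul]
  apply Complex.ext <;> simp [mat, mul_comm]

theorem det_eq (A : ℂ →ₗ[ℝ] ℂ) :
    LinearMap.det A = (A 1).re * (A Complex.I).im - (A Complex.I).re * (A 1).im := by
  rw [← LinearMap.det_toMatrix Complex.basisOneI, Matrix.det_fin_two]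
  simp [LinearMap.toMatrix_apply]

theorem norm_mat (a b c d : ℝ) (z : ℂ) :
    ‖mat a b c d z‖ ≤ (|a| + |b| + |c| + |d|) * ‖z‖ := by
  have h1 := Complex.norm_le_abs_re_add_abs_im (mat a b c d z)
  rw [mat_re, mat_im] at h1
  have h2 := Complex.abs_re_le_norm z
  have h3 := Complex.abs_im_le_norm z
  have h4 : |a * z.re + b * z.im| ≤ |a| * ‖z‖ + |b| * ‖z‖ := by
    refine (abs_add_le _ _).trans ?_
    rw [abs_mul, abs_mul]
    gcongr
  have h5 : |c * z.re + d * z.im| ≤ |c| * ‖z‖ + |d| * ‖z‖ := by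
    refine (abs_add_le _ _).trans ?_
    rw [abs_mul, abs_mul]
    gcongr
  linarith

theorem CS_mul' {f g : Equiv.Perm ℂ} (hf : CS f) (hg : CS g) : CS (f * g) := by
  obtain ⟨r, hr⟩ := hf
  obtain ⟨s, hs⟩ := hg
  refine ⟨max r s, fun z hz => ?_⟩
  rw [Equiv.Perm.mul_apply, hs z ((le_max_right _ _).trans_lt hz),
    hr z ((le_max_left _ _).trans_lt hz)]

theorem germ_mul {n m : Equiv.Perm ℂ} {f : ℂ → ℂ} {a b c d : ℝ} (hn : Germ n f)
    (hm : Germ m (mat a b c d)) : Germ (n * m) (fun z => f (mat a b c d z)) := by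
  obtain ⟨h1, h2, r, hr, h3⟩ := hn
  obtain ⟨k1, k2, s, hs, k3⟩ := hm
  refine ⟨AP_mul h1 k1, CS_mul' h2 k2, min s (r / (|a| + |b| + |c| + |d| + 1)), ?_, ?_⟩
  · exact lt_min hs (by positivity)
  · intro z hz
    have h4 : ‖z‖ < s := hz.trans_le (min_le_left _ _)
    have h5 : ‖z‖ < r / (|a| + |b| + |c| + |d| + 1) := hz.trans_le (min_le_right _ _)
    have hpos : 0 < |a| + |b| + |c| + |d| + 1 := by positivity
    rw [lt_div_iff₀ hpos] at h5
    have h6 := norm_mat a b c d z
    have h7 : 0 ≤ ‖z‖ := norm_nonneg z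
    rw [Equiv.Perm.mul_apply, k3 z h4]
    exact h3 _ (by nlinarith)

theorem germ_congr {n : Equiv.Perm ℂ} {f g : ℂ → ℂ} (h : Germ n f) (hfg : ∀ z, f z = g z) :
    Germ n g := by
  rwa [funext hfg] at h

theorem upper (h : S_shear) (t : ℝ) : ∃ n, Germ n (mat 1 t 0 1) := by
  obtain ⟨n, hn⟩ := (h t).1
  exact ⟨n, germ_congr hn fun z => by apply Complex.ext <;> simp [mat]⟩

theorem lower (h : S_shear) (t : ℝ) : ∃ n, Germ n (mat 1 0 t 1) := by
  obtain ⟨n, hn⟩ := (h t).2
  exact ⟨n, germ_congr hn fun z => by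
    apply Complex.ext
    · simp [mat]
    · simp only [mat]
      ring⟩

theorem case1 (h : S_shear) (a b c d : ℝ) (hc : c ≠ 0) (hdet : a * d - b * c = 1) :
    ∃ n, Germ n (mat a b c d) := by
  obtain ⟨n1, h1⟩ := upper h ((a - 1) / c)
  obtain ⟨n2, h2⟩ := lower h c
  obtain ⟨n3, h3⟩ := upper h ((d - 1) / c)
  refine ⟨n1 * n2 * n3, germ_congr (germ_mul (germ_mul h1 h2) h3) fun z => ?_⟩
  apply Complex.ext
  · simp only [mat]
    field_simp
    have hb : b * c = a * d - 1 := by linarith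
    linear_combination (-z.im) * hb
  · simp only [mat]
    field_simp
    ring

theorem t_lin (h : S_shear) : S_lin := by
  intro A hA
  rw [det_eq] at hA
  have key : ∀ a b c d : ℝ, a * d - b * c = 1 → ∃ n, Germ n (mat a b c d) := by
    intro a b c d hdet
    by_cases hc : c = 0
    · subst hc
      have hd : d ≠ 0 := by
        rintro rfl
        simp at hdet
      obtain ⟨n1, h1⟩ := case1 h (a + b) b d d hd (by linarith)
      obtain ⟨n2, h2⟩ := lower h (-1)
      refine ⟨n1 * n2, germ_congr (germ_mul h1 h2) fun z => ?_⟩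
      apply Complex.ext
      · simp only [mat]
        ring
      · simp only [mat]
        ring
    · exact case1 h a b c d hc hdet
  obtain ⟨n, hn⟩ := key _ _ _ _ hA
  exact ⟨n, germ_congr hn fun z => (mat_eq A z).symm⟩

end Pool.Agent.W645.DP.Lin
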